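import Pool.Agent.Helper53.WR.TowDefs

/-!
# WR2-2, part 1: exceptional blocks of a tower, restriction to `[0, 2 ^ J)`
-/

set_option autoImplicit false

namespace Pool.Agent.Helper48.WR

open Finset Filter
open Pool.Agent.Helper53.WR

open Classical in
/-- The exceptional blocks. -/
noncomputable def badSet (A : Set ℕ) (J : ℕ) : Finset ℕ :=
  (range J).filter (fun j => ¬ CovBlock A j)

lemma badCount_eq (A : Set ℕ) (J : ℕ) : badCount A J = (badSet A J).card := rfl

lemma mem_badSet {A : Set ℕ} {J j : ℕ} : j ∈ badSet A J ↔ j < J ∧ ¬ CovBlock A j := by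
  classical
  unfold badSet
  rw [mem_filter, mem_range]

section tower

variable {a u e : ℕ → ℕ}

/-- Start of the covered range number `k`. -/
def bT (a u e : ℕ → ℕ) (k : ℕ) : ℕ := 4 * a k + thT u e k + 8

/-- End of the covered range number `k`. -/
def eT (a u : ℕ → ℕ) (k : ℕ) : ℕ := 4 * a k + laT u k

lemma bT_succ (hstep : ∀ k, a (k + 1) = a k + u k) (hu : ∀ k, 1 ≤ u k) (k : ℕ) :
    bT a u e (k + 1) = eT a u k + (64 * e (k + 1) + 13) := by
  unfold bT eT thT laT
  have h1 := hstep k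
  have h2 := hu k
  have h3 := hu (k + 1)
  omega

lemma le_seq (hstep : ∀ k, a (k + 1) = a k + u k) (hu : ∀ k, 1 ≤ u k) (k : ℕ) : k ≤ a k := by
  induction k with
  | zero => exact Nat.zero_le _
  | succ k ih =>
    have h1 := hstep k
    have h2 := hu k
    omega

lemma exists_kT (hstep : ∀ k, a (k + 1) = a k + u k) (hu : ∀ k, 1 ≤ u k) {j : ℕ}
    (hj : bT a u e 0 ≤ j) : ∃ k, bT a u e k ≤ j ∧ j < bT a u e (k + 1) := by
  classical
  have hex : ∃ k, j < bT a u e (k + 1) := by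
    refine ⟨j, ?_⟩
    have h1 := le_seq hstep hu (j + 1)
    unfold bT
    omega
  have h2 := Nat.find_spec hex
  refine ⟨Nat.find hex, ?_, h2⟩
  by_contra hcon
  push Not at hcon
  have h3 : Nat.find hex ≠ 0 := by
    intro h0
    rw [h0] at hcon
    omega
  have h4 := Nat.find_min hex (m := Nat.find hex - 1) (by omega)
  apply h4
  have h5 : Nat.find hex - 1 + 1 = Nat.find hex := by omega
  rw [h5]
  exact hcon

lemma badSetT_subset (hstep : ∀ k, a (k + 1) = a k + u k) (hu : ∀ k, 1 ≤ u k)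
    {T : ℕ → Finset ℕ} {A : Set ℕ}
    (hcov : ∀ k j, 4 * a k + thT u e k + 8 ≤ j → j + 1 ≤ 4 * a k + laT u k →
        (∀ i, i ≤ 5 → CovBlock (T k : Set ℕ) (j - 4 * a k - i)) → CovBlock A j) {J : ℕ}
    (K : Finset ℕ) (hK : ∀ k, 4 * a k ≤ J → k ∈ K) :
    badSet A J ⊆ range (bT a u e 0) ∪ K.biUnion (fun k =>
      ((range 6).biUnion (fun i => (badSet (T k : Set ℕ) (laT u k)).image
        (fun t => t + 4 * a k + i))) ∪ Ico (eT a u k) (eT a u k + (64 * e (k + 1) + 13))) := by
  intro j hj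
  rw [mem_badSet] at hj
  obtain ⟨hjJ, hjA⟩ := hj
  rw [mem_union]
  by_cases hb : j < bT a u e 0
  · exact Or.inl (mem_range.2 hb)
  · right
    push Not at hb
    obtain ⟨k, hkb, hkb'⟩ := exists_kT hstep hu hb
    rw [mem_biUnion]
    have hkM : 4 * a k ≤ J := by
      unfold bT at hkb
      omega
    refine ⟨k, hK k hkM, ?_⟩
    rw [mem_union]
    by_cases he : j + 1 ≤ eT a u k
    · left
      have h1 : ∃ i, i ≤ 5 ∧ ¬ CovBlock (T k : Set ℕ) (j - 4 * a k - i) := by
        by_contra hcon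
        push Not at hcon
        exact hjA (hcov k j hkb he hcon)
      obtain ⟨i, hi, hiT⟩ := h1
      rw [mem_biUnion]
      refine ⟨i, mem_range.2 (by omega), ?_⟩
      rw [mem_image]
      refine ⟨j - 4 * a k - i, ?_, ?_⟩
      · rw [mem_badSet]
        refine ⟨?_, hiT⟩
        unfold bT at hkb
        unfold eT at he
        omega
      · unfold bT at hkb
        omega
    · right
      rw [mem_Ico]
      rw [bT_succ hstep hu] at hkb'
      omega

/-- Counting the exceptional blocks of a tower. -/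
lemma badCountT_le (hstep : ∀ k, a (k + 1) = a k + u k) (hu : ∀ k, 1 ≤ u k)
    {T : ℕ → Finset ℕ} {A : Set ℕ}
    (hcov : ∀ k j, 4 * a k + thT u e k + 8 ≤ j → j + 1 ≤ 4 * a k + laT u k →
        (∀ i, i ≤ 5 → CovBlock (T k : Set ℕ) (j - 4 * a k - i)) → CovBlock A j) {J : ℕ}
    (K : Finset ℕ) (hK : ∀ k, 4 * a k ≤ J → k ∈ K) :
    badCount A J ≤ bT a u e 0 + ∑ k ∈ K,
      (6 * badCount (T k : Set ℕ) (laT u k) + (64 * e (k + 1) + 13)) := by
  rw [badCount_eq]
  refine le_trans (card_le_card (badSetT_subset hstep hu hcov K hK)) ?_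
  refine le_trans (card_union_le _ _) ?_
  rw [card_range]
  refine Nat.add_le_add_left ?_ _
  refine le_trans card_biUnion_le ?_
  refine sum_le_sum fun k _ => ?_
  refine le_trans (card_union_le _ _) ?_
  rw [Nat.card_Ico, Nat.add_sub_cancel_left]
  refine Nat.add_le_add_right ?_ _
  refine le_trans card_biUnion_le ?_
  refine le_trans (sum_le_card_nsmul _ _ (badCount (T k : Set ℕ) (laT u k)) fun i _ => ?_) ?_
  · rw [badCount_eq]
    exact card_image_le
  · rw [card_range, smul_eq_mul]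

/-- The range of `n`. -/
lemma exists_range (hstep : ∀ k, a (k + 1) = a k + u k) (hu : ∀ k, 1 ≤ u k) {n : ℕ}
    (hn : 2 ^ (4 * a 0 + thT u e 0) ≤ n) :
    ∃ k, 2 ^ (4 * a k + thT u e k) ≤ n ∧ n < 2 ^ (4 * a (k + 1) + thT u e (k + 1)) := by
  classical
  have hex : ∃ k, n < 2 ^ (4 * a (k + 1) + thT u e (k + 1)) := by
    refine ⟨n, ?_⟩
    have h1 := le_seq hstep hu (n + 1)
    exact lt_of_lt_of_le Nat.lt_two_pow_self (Nat.pow_le_pow_right (by norm_num) (by omega))
  have h2 := Nat.find_spec hex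
  refine ⟨Nat.find hex, ?_, h2⟩
  by_contra hcon
  push Not at hcon
  have h3 : Nat.find hex ≠ 0 := by
    intro h0
    rw [h0] at hcon
    omega
  have h4 := Nat.find_min hex (m := Nat.find hex - 1) (by omega)
  apply h4
  have h5 : Nat.find hex - 1 + 1 = Nat.find hex := by omega
  rw [h5]
  exact hcon

end tower

open Classical in
/-- The part of `A` below `2 ^ J`. -/
noncomputable def cut (A : Set ℕ) (J : ℕ) : Finset ℕ := (range (2 ^ J)).filter (fun x => x ∈ A)

lemma mem_cut {A : Set ℕ} {J x : ℕ} : x ∈ cut A J ↔ x < 2 ^ J ∧ x ∈ A := by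
  classical
  unfold cut
  rw [mem_filter, mem_range]

lemma repF_cut_le (A : Set ℕ) (J n : ℕ) : repF (cut A J) n ≤ rep A n := by
  unfold repF rep
  rw [← Set.ncard_coe_finset]
  apply Set.ncard_le_ncard
  · intro p hp
    rw [Finset.mem_coe, mem_filter, mem_product, mem_cut, mem_cut] at hp
    exact ⟨hp.1.1.2, hp.1.2.2, hp.2⟩
  · apply Set.Finite.subset (Finset.finite_toSet (Finset.HasAntidiagonal.antidiagonal n))
    rintro p ⟨_, _, hp⟩
    rw [Finset.mem_coe, Finset.HasAntidiagonal.mem_antidiagonal]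
    exact hp

lemma repF_cut_zero (A : Set ℕ) {J n : ℕ} (hn : 2 ^ (J + 1) ≤ n) : repF (cut A J) n = 0 := by
  unfold repF
  rw [card_eq_zero, filter_eq_empty_iff]
  intro p hp h
  rw [mem_product, mem_cut, mem_cut] at hp
  have h1 := hp.1.1
  have h2 := hp.2.1
  rw [pow_succ] at hn
  omega

lemma badCount_cut_le (A : Set ℕ) (J : ℕ) : badCount (cut A J : Set ℕ) J ≤ badCount A J := by
  rw [badCount_eq, badCount_eq]
  apply card_le_card
  intro j hj
  rw [mem_badSet] at hj ⊢
  refine ⟨hj.1, fun h => hj.2 ?_⟩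
  intro n h1 h2
  obtain ⟨x, hx, y, hy, hxy⟩ := h n h1 h2
  have h3 : 2 ^ (j + 1) ≤ 2 ^ J := Nat.pow_le_pow_right (by norm_num) hj.1
  refine ⟨x, ?_, y, ?_, hxy⟩
  · rw [Finset.mem_coe, mem_cut]
    exact ⟨by omega, hx⟩
  · rw [Finset.mem_coe, mem_cut]
    exact ⟨by omega, hy⟩

end Pool.Agent.Helper48.WR
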