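import Pool.Agent.Helper53.WR.TowDefs

/-!
# WR2-2, part 2: the geometric sequence
-/

set_option autoImplicit false

namespace Pool.Agent.Helper48.WR

open Finset Filter
open Pool.Agent.Helper53.WR

/-- `a 0 = b`, `a (k + 1) = a k + a k / K`. -/
def aSq (K b : ℕ) : ℕ → ℕ
  | 0 => b
  | k + 1 => aSq K b k + aSq K b k / K

lemma aSq_zero (K b : ℕ) : aSq K b 0 = b := rfl

lemma aSq_succ (K b k : ℕ) : aSq K b (k + 1) = aSq K b k + aSq K b k / K := rfl

lemma aSq_mono (K b : ℕ) : Monotone (aSq K b) := by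
  apply monotone_nat_of_le_succ
  intro k
  rw [aSq_succ]
  exact Nat.le_add_right _ _

lemma le_aSq (K b k : ℕ) : b ≤ aSq K b k := aSq_mono K b (Nat.zero_le k)

lemma aSq_add (K b : ℕ) (i j : ℕ) : aSq K b i + j * (aSq K b i / K) ≤ aSq K b (i + j) := by
  induction j with
  | zero => simp
  | succ j ih =>
    rw [← add_assoc, aSq_succ]
    have h1 : aSq K b i / K ≤ aSq K b (i + j) / K :=
      Nat.div_le_div_right (aSq_mono K b (by omega))
    have h2 : (j + 1) * (aSq K b i / K) = j * (aSq K b i / K) + aSq K b i / K := by ring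
    omega

lemma aSq_double {K b : ℕ} (hK : 1 ≤ K) (hb : K ≤ b) (i : ℕ) :
    2 * aSq K b i ≤ aSq K b (i + 2 * K) := by
  refine le_trans ?_ (aSq_add K b i (2 * K))
  have h1 := le_aSq K b i
  have h2 : 1 ≤ aSq K b i / K := by
    rw [Nat.le_div_iff_mul_le (by omega)]
    omega
  have h3 := Nat.div_add_mod (aSq K b i) K
  have h4 := Nat.mod_lt (aSq K b i) (show 0 < K by omega)
  nlinarith

lemma two_pow_le_aSq {K b : ℕ} (hK : 1 ≤ K) (hb : K ≤ b) (r : ℕ) :
    2 ^ r * b ≤ aSq K b (2 * K * r) := by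
  induction r with
  | zero => simp [aSq_zero]
  | succ r ih =>
    have h1 := aSq_double hK hb (2 * K * r)
    have h2 : 2 * K * (r + 1) = 2 * K * r + 2 * K := by ring
    rw [h2, pow_succ]
    nlinarith

lemma lt_of_aSq_le {K b r k J : ℕ} (hK : 1 ≤ K) (hb : K ≤ b) (hJ : J < 2 ^ r * b)
    (h : aSq K b k ≤ J) : k < 2 * K * r := by
  by_contra hc
  push Not at hc
  have h1 := aSq_mono K b hc
  have h2 := two_pow_le_aSq hK hb r
  omega

/-- The gap parameter. -/
def eSq (K b E t k : ℕ) : ℕ := E + aSq K b k / t + 1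

/-- The step. -/
def uSq (K b k : ℕ) : ℕ := aSq K b k / K

lemma tow_aSq {K E t F : ℕ} (hK : 100 ≤ K) (hE : 300 ≤ E) (ht : 400 * K ≤ t)
    (hEt : 20 * t ≤ 2 ^ E) (hF : F ≤ 2 ^ E) :
    Tow (aSq K (200 * K * (E + 2))) (uSq K (200 * K * (E + 2))) (eSq K (200 * K * (E + 2)) E t)
      (fun _ => t) (fun _ => 4 * K) (fun _ => F) := by
  have hK0 : 0 < K := by omega
  have ht0 : 0 < t := by omega
  have hU : ∀ k, 200 * (E + 2) ≤ aSq K (200 * K * (E + 2)) k / K := by
    intro k
    rw [Nat.le_div_iff_mul_le hK0]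
    have := le_aSq K (200 * K * (E + 2)) k
    nlinarith
  have hlt : ∀ x : ℕ, x < t * (x / t + 1) := fun x => Nat.lt_mul_div_succ x ht0
  refine ⟨fun k => rfl, ?_, ?_, ?_, ?_, ?_, ?_, ?_, ?_, ?_, ?_, ?_⟩
  · intro k
    unfold eSq
    have := Nat.zero_le (aSq K (200 * K * (E + 2)) k / t)
    generalize aSq K (200 * K * (E + 2)) k / t = y at *
    omega
  · intro k
    unfold eSq uSq
    have h1 := hU k
    have h2 : aSq K (200 * K * (E + 2)) k / t ≤ aSq K (200 * K * (E + 2)) k / K / 400 := by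
      rw [Nat.div_div_eq_div_mul, mul_comm K 400]
      exact Nat.div_le_div_left ht (by omega)
    omega
  · intro k
    unfold uSq
    have h3 := Nat.div_mul_le_self (aSq K (200 * K * (E + 2)) k) K
    calc 100 * (aSq K (200 * K * (E + 2)) k / K)
        ≤ K * (aSq K (200 * K * (E + 2)) k / K) := Nat.mul_le_mul_right _ hK
      _ = aSq K (200 * K * (E + 2)) k / K * K := mul_comm _ _
      _ ≤ _ := h3
  · intro k
    unfold uSq
    rw [aSq_succ]
    have h1 := hU k
    set x := aSq K (200 * K * (E + 2)) k with hx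
    set U := x / K with hUd
    have h2 : (x + U) / K ≤ U + 1 + U / 100 := by
      have h3 : x < K * (U + 1) := Nat.lt_mul_div_succ x hK0
      have h4 : U < 100 * (U / 100 + 1) := Nat.lt_mul_div_succ U (by norm_num)
      have h5 : x + U < K * (U + 1 + (U / 100 + 1)) := by
        have h6 : 100 * (U / 100 + 1) ≤ K * (U / 100 + 1) := Nat.mul_le_mul_right _ hK
        rw [mul_add K (U + 1)]
        omega
      have h7 := Nat.div_lt_of_lt_mul h5
      omega
    omega
  · intro k
    unfold uSq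
    exact Nat.div_le_div_right (aSq_mono K _ (Nat.le_succ k))
  · intro k
    unfold eSq
    exact Nat.add_le_add_right (Nat.add_le_add_left
      (Nat.div_le_div_right (aSq_mono K (200 * K * (E + 2)) (Nat.le_succ k))) _) _
  · intro k
    exact le_rfl
  · intro k
    unfold eSq
    set x := aSq K (200 * K * (E + 2)) k with hx
    have h1 := hlt x
    have h2 : x / t + 1 ≤ 2 ^ (x / t + 1) := Nat.lt_two_pow_self.le
    calc 20 * x ≤ 20 * (t * (x / t + 1)) := Nat.mul_le_mul_left _ h1.le
      _ = 20 * t * (x / t + 1) := by ring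
      _ ≤ 2 ^ E * 2 ^ (x / t + 1) := Nat.mul_le_mul hEt h2
      _ = 2 ^ (E + x / t + 1) := by rw [← pow_add, add_assoc]
  · intro k
    unfold eSq
    exact hF.trans (Nat.pow_le_pow_right (by norm_num)
      ((Nat.le_add_right _ _).trans (Nat.le_add_right _ _)))
  · intro k
    unfold eSq
    set x := aSq K (200 * K * (E + 2)) k with hx
    have h1 := hlt x
    have h2 : t * (x / t + 1) ≤ (E + x / t + 1) * t := by
      rw [mul_comm]
      refine Nat.mul_le_mul_right _ ?_
      generalize x / t = y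
      omega
    omega
  · intro k
    unfold uSq
    have h1 := hU k
    set x := aSq K (200 * K * (E + 2)) k with hx
    have h3 : x < K * (x / K + 1) := Nat.lt_mul_div_succ x hK0
    have h4 : 3 ≤ x / K := by omega
    have h5 : 3 * x ≤ 3 * (K * (x / K + 1)) := by omega
    have h6 : 3 * (K * (x / K + 1)) ≤ x / K * (4 * K) := by nlinarith
    omega

end Pool.Agent.Helper48.WR
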