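import Pool.Agent.Helper53.WR.TowDefs
import Pool.Agent.Helper48.WR.FinCount
import Pool.Agent.Helper3.ThinMain

/-!
# WR2-2, part 3: the start of the recursion
-/

set_option autoImplicit false

namespace Pool.Agent.Helper48.WR

open Finset Filter
open Pool.Agent.Helper53.WR

private lemma rep_le_succ (A : Set ℕ) (n : ℕ) : rep A n ≤ n + 1 := by
  unfold rep
  have hsub : ({p : ℕ × ℕ | p.1 ∈ A ∧ p.2 ∈ A ∧ p.1 + p.2 = n} : Set (ℕ × ℕ))
      ⊆ ((Finset.HasAntidiagonal.antidiagonal n : Finset (ℕ × ℕ)) : Set (ℕ × ℕ)) := by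
    rintro p ⟨_, _, hp⟩
    rw [Finset.mem_coe, Finset.HasAntidiagonal.mem_antidiagonal]
    exact hp
  have h := Set.ncard_le_ncard hsub (Finset.finite_toSet _)
  rw [Set.ncard_coe_finset, Finset.Nat.card_antidiagonal] at h
  exact h

/-- A basis with at most `C * l` representations of the numbers below `2 ^ l`. -/
theorem base_basis : ∃ (A : Set ℕ) (C : ℕ), (∀ n, ∃ a ∈ A, ∃ b ∈ A, a + b = n) ∧
    ∀ l, 1 ≤ l → ∀ n, n < 2 ^ l → rep A n ≤ C * l := by
  classical
  obtain ⟨A, hA, C, hC⟩ := Pool.Agent.Helper3.Thin.thin_basis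
  obtain ⟨N, hN⟩ := eventually_atTop.mp hC
  refine ⟨A, ⌈|C|⌉₊ + (max N 16 + 1), hA, ?_⟩
  intro l hl n hn
  have hl1 : (1 : ℝ) ≤ (l : ℝ) := by exact_mod_cast hl
  rcases lt_or_ge n (max N 16) with h | h
  · have := rep_le_succ A n
    have h2 : rep A n ≤ max N 16 + 1 := by omega
    calc rep A n ≤ max N 16 + 1 := h2
      _ ≤ (⌈|C|⌉₊ + (max N 16 + 1)) * 1 := by omega
      _ ≤ _ := Nat.mul_le_mul_left _ hl
  · have hnN : N ≤ n := le_trans (le_max_left _ _) h
    have hn16 : 16 ≤ n := le_trans (le_max_right _ _) h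
    have h1 := hN n hnN
    have hnpos : (0 : ℝ) < (n : ℝ) := by
      have : 0 < n := by omega
      exact_mod_cast this
    have he : Real.exp (Real.exp 1) ≤ (n : ℝ) := by
      have h16 : (16 : ℝ) ≤ (n : ℝ) := by exact_mod_cast hn16
      have hexp1 : Real.exp 1 ≤ 2.7182818286 := Real.exp_one_lt_d9.le
      have h5 : Real.exp (Real.exp 1) ≤ Real.exp (2.72 : ℝ) :=
        Real.exp_le_exp.mpr (by linarith)
      have h6 : Real.exp (2.72 : ℝ) ≤ 16 := by
        have h8 : Real.exp (2.72 : ℝ) = Real.exp (0.68 : ℝ) ^ 4 := by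
          rw [← Real.exp_nat_mul]; norm_num
        have h9 : Real.exp (0.68 : ℝ) ≤ 2 := by
          have h10 : (0.68 : ℝ) ≤ Real.log 2 := by
            have := Real.log_two_gt_d9
            linarith
          calc Real.exp (0.68 : ℝ) ≤ Real.exp (Real.log 2) := Real.exp_le_exp.mpr h10
            _ = 2 := Real.exp_log (by norm_num)
        rw [h8]
        calc Real.exp (0.68 : ℝ) ^ 4 ≤ 2 ^ 4 :=
              pow_le_pow_left₀ (Real.exp_pos _).le h9 4
          _ = 16 := by norm_num
      linarith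
    have hlog : Real.exp 1 ≤ Real.log n := by
      rw [Real.le_log_iff_exp_le hnpos]
      exact he
    have hlogpos : 0 < Real.log n := lt_of_lt_of_le (Real.exp_pos 1) hlog
    have hloglog : 1 ≤ Real.log (Real.log n) := by
      rw [Real.le_log_iff_exp_le hlogpos]
      exact hlog
    have hdiv : Real.log n / Real.log (Real.log n) ≤ Real.log n :=
      div_le_self hlogpos.le hloglog
    have hdiv0 : 0 ≤ Real.log n / Real.log (Real.log n) :=
      div_nonneg hlogpos.le (by linarith)
    have hlogl : Real.log n ≤ (l : ℝ) := by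
      have h11 : Real.log n ≤ Real.log ((2 : ℝ) ^ l) := by
        apply Real.log_le_log hnpos
        exact_mod_cast hn.le
      rw [Real.log_pow] at h11
      have h12 : Real.log 2 ≤ 1 := by
        have := Real.log_two_lt_d9
        linarith
      nlinarith [Real.log_nonneg (show (1 : ℝ) ≤ 2 by norm_num)]
    have h13 : C * (Real.log n / Real.log (Real.log n)) ≤ |C| * (l : ℝ) := by
      calc C * (Real.log n / Real.log (Real.log n))
          ≤ |C| * (Real.log n / Real.log (Real.log n)) :=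
            mul_le_mul_of_nonneg_right (le_abs_self C) hdiv0
        _ ≤ |C| * (l : ℝ) :=
            mul_le_mul_of_nonneg_left (le_trans hdiv hlogl) (abs_nonneg C)
    have h14 : (rep A n : ℝ) ≤ |C| * (l : ℝ) := by
      unfold rep
      exact le_trans h1 h13
    have h15 : (rep A n : ℝ) ≤ ((⌈|C|⌉₊ * l : ℕ) : ℝ) := by
      push_cast
      exact h14.trans (mul_le_mul_of_nonneg_right (Nat.le_ceil _) (Nat.cast_nonneg _))
    have h16 : rep A n ≤ ⌈|C|⌉₊ * l := by exact_mod_cast h15
    exact h16.trans (Nat.mul_le_mul_right _ (Nat.le_add_right _ _))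

/-- A finite set below `2 ^ J` with at most `F` representations of every number and at most
`X * J / R` dyadic blocks below `2 ^ J` that are not covered. -/
def Lev (R F X J : ℕ) : Prop :=
  ∃ A : Finset ℕ, (∀ x ∈ A, x < 2 ^ J) ∧ (∀ n, repF A n ≤ F) ∧
    badCount (A : Set ℕ) J * R ≤ X * J

lemma Lev.mono {R F F' X X' J : ℕ} (h : Lev R F X J) (hF : F ≤ F') (hX : X ≤ X') :
    Lev R F' X' J := by
  obtain ⟨A, h1, h2, h3⟩ := h
  exact ⟨A, h1, fun n => (h2 n).trans hF, h3.trans (Nat.mul_le_mul_right _ hX)⟩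

/-- The start. -/
theorem lev_base : ∃ C : ℕ, ∀ R J, 1 ≤ R → J ≤ R → Lev R (C * R) 0 J := by
  obtain ⟨A, C, hA, hC⟩ := base_basis
  refine ⟨2 * C, fun R J hR hJ => ⟨cut A J, fun x hx => (mem_cut.1 hx).1, ?_, ?_⟩⟩
  · intro n
    rcases lt_or_ge n (2 ^ (J + 1)) with h | h
    · refine (repF_cut_le A J n).trans ((hC (J + 1) (by omega) n h).trans ?_)
      calc C * (J + 1) ≤ C * (2 * R) := Nat.mul_le_mul_left _ (by omega)
        _ = 2 * C * R := by ring
    · rw [repF_cut_zero A h]
      exact Nat.zero_le _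
  · have h0 : badCount A J = 0 := by
      rw [badCount_eq, Finset.card_eq_zero, Finset.eq_empty_iff_forall_notMem]
      intro j hj
      rw [mem_badSet] at hj
      exact hj.2 (fun n _ _ => hA n)
    have h1 := badCount_cut_le A J
    rw [h0] at h1
    have h2 : badCount (cut A J : Set ℕ) J = 0 := by omega
    rw [h2]
    simp

end Pool.Agent.Helper48.WR
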