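import Pool.Agent.Helper53.WR.Tower
import Pool.Agent.Helper48.WR.FinBase
import Pool.Agent.Helper48.WR.FinSeq

/-!
# WR2-2, part 4: one level of the recursion
-/

set_option autoImplicit false

namespace Pool.Agent.Helper48.WR

open Finset Filter
open Pool.Agent.Helper53.WR

/-- Sums of the steps. -/
lemma sum_u_le {a u : ℕ → ℕ} (hstep : ∀ k, a (k + 1) = a k + u k) (ha : ∀ k, u k ≤ a k)
    (J N : ℕ) : ∑ k ∈ (range N).filter (fun k => 4 * a k ≤ J), u k ≤ min (a N) J := by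
  induction N with
  | zero => simp
  | succ N ih =>
    rw [range_add_one, filter_insert]
    have h1 := hstep N
    have h2 := ha N
    split_ifs with h
    · rw [sum_insert (by simp)]
      have h3 := ih.trans (min_le_left _ _)
      rw [le_min_iff]
      constructor
      · omega
      · omega
    · have h3 := ih.trans (min_le_left _ _)
      have h4 := ih.trans (min_le_right _ _)
      rw [le_min_iff]
      exact ⟨by omega, h4⟩

/-- Numerical facts for the level step. -/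
lemma num_facts {s : ℕ} (hs : 100 ≤ s) : s ^ 2 ≤ 2 ^ s ∧ 64 * (s ^ 2 + 40 * s) + 77 ≤ 2 ^ (2 * s) := by
  have h1 : s ^ 2 ≤ 2 ^ s := by
    induction s, hs using Nat.le_induction with
    | base => norm_num
    | succ n hn ih =>
      have : (n + 1) ^ 2 ≤ 2 * n ^ 2 := by nlinarith
      calc (n + 1) ^ 2 ≤ 2 * n ^ 2 := this
        _ ≤ 2 * 2 ^ n := Nat.mul_le_mul_left _ ih
        _ = 2 ^ (n + 1) := by rw [pow_succ, mul_comm]
  refine ⟨h1, ?_⟩
  have h2 : 64 * (s ^ 2 + 40 * s) + 77 ≤ s ^ 2 * s ^ 2 := by nlinarith [Nat.mul_le_mul hs hs]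
  calc 64 * (s ^ 2 + 40 * s) + 77 ≤ s ^ 2 * s ^ 2 := h2
    _ ≤ 2 ^ s * 2 ^ s := Nat.mul_le_mul h1 h1
    _ = 2 ^ (2 * s) := by rw [← pow_add, two_mul]

/-- One level. -/
theorem level_step {s R F X J : ℕ} (hs : 100 ≤ s) (hR : 2 ^ (10 * s) ≤ R) (hRJ : R < J)
    (hJ : J ≤ 2 ^ s ^ 2) (hF : F ≤ 2 ^ (s ^ 2 + 40 * s))
    (hT : ∀ L, L * 2 ^ s ≤ J → Lev R F X L) :
    Lev R (2 ^ 36 * F + R) (100 * X + 2 ^ (8 * s)) J := by
  classical
  obtain ⟨hs2, hE77⟩ := num_facts hs
  set K := 2 ^ (s + 5) with hK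
  set E := s ^ 2 + 40 * s with hE
  set t := R / 2 ^ (4 * s + 44) with ht
  set b := 200 * K * (E + 2) with hb
  set N := 2 * K * s ^ 2 with hN
  have hK100 : 100 ≤ K := by
    calc 100 ≤ 2 ^ 7 := by norm_num
      _ ≤ 2 ^ (s + 5) := Nat.pow_le_pow_right (by norm_num) (by omega)
  have hE300 : 300 ≤ E := by rw [hE]; omega
  have htK : 400 * K ≤ t := by
    rw [ht, Nat.le_div_iff_mul_le (by positivity)]
    calc 400 * K * 2 ^ (4 * s + 44) ≤ 2 ^ 9 * 2 ^ (s + 5) * 2 ^ (4 * s + 44) := by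
          rw [hK]; gcongr; norm_num
      _ = 2 ^ (5 * s + 58) := by rw [← pow_add, ← pow_add]; congr 1; ring
      _ ≤ 2 ^ (10 * s) := Nat.pow_le_pow_right (by norm_num) (by omega)
      _ ≤ R := hR
  have htR : t * 2 ^ (4 * s + 44) ≤ R := Nat.div_mul_le_self _ _
  have hRt : R ≤ 2 ^ (4 * s + 45) * t := by
    have h1 : R < 2 ^ (4 * s + 44) * (t + 1) := by
      rw [ht]
      exact Nat.lt_mul_div_succ R (by positivity)
    have h2 : 2 ^ (4 * s + 44) * (t + 1) ≤ 2 ^ (4 * s + 44) * (2 * t) :=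
      Nat.mul_le_mul_left _ (by omega)
    calc R ≤ 2 ^ (4 * s + 44) * (2 * t) := by omega
      _ = 2 ^ (4 * s + 45) * t := by rw [pow_succ 2 (4 * s + 44)]; ring
  have hEt : 20 * t ≤ 2 ^ E := by
    have h1 : t ≤ R := Nat.div_le_self _ _
    calc 20 * t ≤ 2 ^ 5 * 2 ^ s ^ 2 := by
          have : t ≤ 2 ^ s ^ 2 := by omega
          omega
      _ = 2 ^ (5 + s ^ 2) := by rw [← pow_add]
      _ ≤ 2 ^ E := Nat.pow_le_pow_right (by norm_num) (by rw [hE]; omega)
  have hTow := tow_aSq (K := K) (E := E) (t := t) (F := F) hK100 hE300 htK hEt hF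
  rw [← hb] at hTow
  set a := aSq K b with ha
  set u := uSq K b with hu
  set e := eSq K b E t with he
  have hK0 : 0 < K := by omega
  have hbK : K ≤ b := by rw [hb]; nlinarith
  have hu1 : ∀ k, 1 ≤ u k := by
    intro k
    have h1 := hTow.eu k
    have h2 := hTow.e300 k
    omega
  have hua : ∀ k, u k ≤ a k := fun k => by have := hTow.ua k; omega
  -- the number of worlds
  have hb1 : 1 ≤ b := by omega
  have hworlds : ∀ k, 4 * a k ≤ J → k < N := by
    intro k hk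
    have hk4 : a k ≤ J / 4 := by
      rw [Nat.le_div_iff_mul_le (by norm_num)]
      omega
    refine lt_of_aSq_le (r := s ^ 2) hK0 hbK ?_ hk4
    have h1 : J / 4 < J := Nat.div_lt_self (by omega) (by norm_num)
    have h2 : 2 ^ s ^ 2 * 1 ≤ 2 ^ s ^ 2 * b := Nat.mul_le_mul_left _ hb1
    omega
  -- the top sets
  have hla : ∀ k, 4 * a k ≤ J → laT u k * 2 ^ s ≤ J := by
    intro k hk
    have h1 := hTow.uu k
    have h2 : laT u k ≤ 14 * u k := by unfold laT; omega
    have h3 : u k * K ≤ a k := Nat.div_mul_le_self _ _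
    have h4 : u k * 2 ^ s * 32 ≤ a k := by
      calc u k * 2 ^ s * 32 = u k * K := by rw [hK, pow_add]; ring
        _ ≤ a k := h3
    calc laT u k * 2 ^ s ≤ 14 * u k * 2 ^ s := Nat.mul_le_mul_right _ h2
      _ = 14 * (u k * 2 ^ s) := by ring
      _ ≤ J := by omega
  have hex : ∀ k, ∃ T : Finset ℕ, (∀ x ∈ T, x < 2 ^ laT u k) ∧ (∀ n, repF T n ≤ F) ∧
      (4 * a k ≤ J → badCount (T : Set ℕ) (laT u k) * R ≤ X * laT u k) := by
    intro k
    by_cases hk : 4 * a k ≤ J
    · obtain ⟨T, h1, h2, h3⟩ := hT (laT u k) (hla k hk)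
      exact ⟨T, h1, h2, fun _ => h3⟩
    · exact ⟨∅, by simp, by simp [repF], fun h => absurd h hk⟩
  choose T hT1 hT2 hT3 using hex
  obtain ⟨A, hA0, hA1, hA2⟩ := tower hTow T hT1 (fun k n => hT2 k n)
  refine ⟨cut A J, fun x hx => (mem_cut.1 hx).1, ?_, ?_⟩
  · -- representations
    intro n
    rcases lt_or_ge n (2 ^ (J + 1)) with hn | hn
    swap
    · rw [repF_cut_zero A hn]
      exact Nat.zero_le _
    refine (repF_cut_le A J n).trans ?_
    rcases lt_or_ge n (2 ^ (4 * a 0 + thT u e 0)) with h0 | h0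
    · rw [hA0 n h0]
      exact Nat.zero_le _
    obtain ⟨k, hk1, hk2⟩ := exists_range (e := e) hTow.step hu1 h0
    have hkJ : 4 * a k ≤ J := by
      have h1 : 2 ^ (4 * a k + thT u e k) < 2 ^ (J + 1) := lt_of_le_of_lt hk1 hn
      have h2 := (Nat.pow_lt_pow_iff_right (by norm_num)).1 h1
      omega
    have hkN := hworlds k hkJ
    refine (hA1 k n hk1 hk2).trans ?_
    have h1 : 4096 ^ 2 * 2592 * F ≤ 2 ^ 36 * F := Nat.mul_le_mul_right _ (by norm_num)
    have h2 : 2 * (4096 * (t * (1 + k * (4096 * (8 * (4 * K)))))) ≤ R := by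
      have h3 : 1 + k * (4096 * (8 * (4 * K))) ≤ 2 ^ (4 * s + 31) := by
        have h4 : k * (4096 * (8 * (4 * K))) ≤ N * (2 ^ 17 * K) := by
          calc k * (4096 * (8 * (4 * K))) = k * (2 ^ 17 * K) := by ring
            _ ≤ N * (2 ^ 17 * K) := Nat.mul_le_mul_right _ hkN.le
        have h5 : N * (2 ^ 17 * K) ≤ 2 ^ (3 * s + 28) := by
          rw [hN]
          calc 2 * K * s ^ 2 * (2 ^ 17 * K) = 2 ^ 18 * (K * K) * s ^ 2 := by ring
            _ ≤ 2 ^ 18 * (K * K) * 2 ^ s := Nat.mul_le_mul_left _ hs2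
            _ = 2 ^ (18 + ((s + 5) + (s + 5)) + s) := by rw [hK, ← pow_add, ← pow_add, ← pow_add]
            _ = 2 ^ (3 * s + 28) := by congr 1; ring
        calc 1 + k * (4096 * (8 * (4 * K))) ≤ 2 ^ (3 * s + 28) + 2 ^ (3 * s + 28) := by
              have : 1 ≤ 2 ^ (3 * s + 28) := Nat.one_le_two_pow
              omega
          _ = 2 ^ (3 * s + 29) := by rw [pow_succ 2 (3 * s + 28)]; ring
          _ ≤ 2 ^ (4 * s + 31) := Nat.pow_le_pow_right (by norm_num) (by omega)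
      calc 2 * (4096 * (t * (1 + k * (4096 * (8 * (4 * K))))))
          ≤ 2 * (4096 * (t * 2 ^ (4 * s + 31))) := by gcongr
        _ = t * (2 ^ 13 * 2 ^ (4 * s + 31)) := by ring
        _ = t * 2 ^ (4 * s + 44) := by rw [← pow_add]; congr 2; ring
        _ ≤ R := htR
    omega
  · -- exceptional blocks
    have hb1 : badCount (cut A J : Set ℕ) J ≤ badCount A J := badCount_cut_le A J
    set Ks := (range N).filter (fun k => 4 * a k ≤ J) with hKs
    have hb2 := badCountT_le hTow.step hu1 hA2 Ks (fun k hk => by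
      rw [hKs, mem_filter, mem_range]; exact ⟨hworlds k hk, hk⟩)
    have hKJ : ∀ k ∈ Ks, 4 * a k ≤ J := fun k hk => (mem_filter.1 hk).2
    have hcard : Ks.card ≤ N := by
      calc Ks.card ≤ (range N).card := card_filter_le _ _
        _ = N := card_range N
    -- first term
    have hT0 : bT a u e 0 ≤ 5 * b := by
      unfold bT thT
      have h1 := hTow.eu 0
      have h2 := hTow.ua 0
      have h3 := hTow.e300 0
      have h4 : a 0 = b := rfl
      omega
    -- the gap terms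
    have hgap : ∀ k ∈ Ks, (64 * e (k + 1) + 13) * R ≤ (2 ^ (2 * s) + 2 ^ (4 * s + 51)) * J := by
      intro k hk
      have hkJ := hKJ k hk
      have h1 : a (k + 1) ≤ J := by
        have h2 := hTow.step k
        have h3 := hua k
        omega
      have h2 : e (k + 1) = E + a (k + 1) / t + 1 := rfl
      have h3 : a (k + 1) / t * R ≤ 2 ^ (4 * s + 45) * J := by
        calc a (k + 1) / t * R ≤ a (k + 1) / t * (2 ^ (4 * s + 45) * t) :=
              Nat.mul_le_mul_left _ hRt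
          _ = 2 ^ (4 * s + 45) * (a (k + 1) / t * t) := by ring
          _ ≤ 2 ^ (4 * s + 45) * a (k + 1) := Nat.mul_le_mul_left _ (Nat.div_mul_le_self _ _)
          _ ≤ 2 ^ (4 * s + 45) * J := Nat.mul_le_mul_left _ h1
      have h4 : (64 * E + 77) * R ≤ 2 ^ (2 * s) * J := Nat.mul_le_mul hE77 hRJ.le
      calc (64 * e (k + 1) + 13) * R = (64 * E + 77) * R + 64 * (a (k + 1) / t * R) := by
            rw [h2]; ring
        _ ≤ 2 ^ (2 * s) * J + 64 * (2 ^ (4 * s + 45) * J) := by omega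
        _ = (2 ^ (2 * s) + 2 ^ (4 * s + 51)) * J := by
            rw [show 4 * s + 51 = 6 + (4 * s + 45) by ring, pow_add 2 6]; ring
    have hbadT : ∀ k ∈ Ks, 6 * badCount (T k : Set ℕ) (laT u k) * R ≤ 84 * X * u k := by
      intro k hk
      have h1 := hT3 k (hKJ k hk)
      have h2 : laT u k ≤ 14 * u k := by
        have := hTow.uu k
        unfold laT
        omega
      calc 6 * badCount (T k : Set ℕ) (laT u k) * R
          = 6 * (badCount (T k : Set ℕ) (laT u k) * R) := by ring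
        _ ≤ 6 * (X * laT u k) := Nat.mul_le_mul_left _ h1
        _ ≤ 6 * (X * (14 * u k)) := by gcongr
        _ = 84 * X * u k := by ring
    have hsum : (∑ k ∈ Ks, (6 * badCount (T k : Set ℕ) (laT u k) + (64 * e (k + 1) + 13))) * R
        ≤ 84 * X * J + N * ((2 ^ (2 * s) + 2 ^ (4 * s + 51)) * J) := by
      rw [sum_mul]
      calc ∑ k ∈ Ks, (6 * badCount (T k : Set ℕ) (laT u k) + (64 * e (k + 1) + 13)) * R
          ≤ ∑ k ∈ Ks, (84 * X * u k + (2 ^ (2 * s) + 2 ^ (4 * s + 51)) * J) := by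
            refine sum_le_sum fun k hk => ?_
            rw [add_mul]
            exact Nat.add_le_add (hbadT k hk) (hgap k hk)
        _ = 84 * X * ∑ k ∈ Ks, u k + Ks.card * ((2 ^ (2 * s) + 2 ^ (4 * s + 51)) * J) := by
            rw [sum_add_distrib, mul_sum, sum_const, smul_eq_mul]
        _ ≤ 84 * X * J + N * ((2 ^ (2 * s) + 2 ^ (4 * s + 51)) * J) := by
            have h1 := (sum_u_le hTow.step hua J N).trans (min_le_right _ _)
            gcongr
    have hN2 : N ≤ 2 ^ (2 * s + 6) := by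
      rw [hN]
      calc 2 * K * s ^ 2 ≤ 2 * K * 2 ^ s := Nat.mul_le_mul_left _ hs2
        _ = 2 ^ (1 + (s + 5) + s) := by rw [hK, pow_add 2 (1 + (s + 5)), pow_add 2 1, pow_one]
        _ = 2 ^ (2 * s + 6) := by congr 1; ring
    have hb5 : 5 * b * R ≤ 2 ^ (4 * s) * J := by
      have h1 : 5 * b ≤ 2 ^ (4 * s) := by
        have h2 : E + 2 ≤ 2 ^ (2 * s) := by omega
        calc 5 * b = 1000 * K * (E + 2) := by rw [hb]; ring
          _ ≤ 2 ^ 10 * K * 2 ^ (2 * s) := by gcongr; norm_num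
          _ = 2 ^ (10 + (s + 5) + 2 * s) := by rw [hK, pow_add 2 (10 + (s + 5)), pow_add 2 10]
          _ ≤ 2 ^ (4 * s) := Nat.pow_le_pow_right (by norm_num) (by omega)
      exact Nat.mul_le_mul h1 hRJ.le
    have hfin : N * ((2 ^ (2 * s) + 2 ^ (4 * s + 51)) * J) + 2 ^ (4 * s) * J
        ≤ 2 ^ (8 * s) * J := by
      have h1 : N * (2 ^ (2 * s) + 2 ^ (4 * s + 51)) + 2 ^ (4 * s) ≤ 2 ^ (8 * s) := by
        have h2 : 2 ^ (2 * s) ≤ 2 ^ (4 * s + 51) := Nat.pow_le_pow_right (by norm_num) (by omega)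
        have h3 : N * (2 ^ (2 * s) + 2 ^ (4 * s + 51)) ≤ 2 ^ (2 * s + 6) * (2 * 2 ^ (4 * s + 51)) :=
          Nat.mul_le_mul hN2 (by omega)
        have h4 : 2 ^ (2 * s + 6) * (2 * 2 ^ (4 * s + 51)) = 2 ^ (6 * s + 58) := by
          rw [show 6 * s + 58 = (2 * s + 6) + (1 + (4 * s + 51)) by ring, pow_add 2 (2 * s + 6),
            pow_add 2 1, pow_one]
        have h5 : 2 ^ (4 * s) ≤ 2 ^ (6 * s + 58) := Nat.pow_le_pow_right (by norm_num) (by omega)
        have h6 : 2 * 2 ^ (6 * s + 58) ≤ 2 ^ (8 * s) := by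
          calc 2 * 2 ^ (6 * s + 58) = 2 ^ (6 * s + 59) := by rw [pow_succ 2 (6 * s + 58)]; ring
            _ ≤ 2 ^ (8 * s) := Nat.pow_le_pow_right (by norm_num) (by omega)
        omega
      calc N * ((2 ^ (2 * s) + 2 ^ (4 * s + 51)) * J) + 2 ^ (4 * s) * J
          = (N * (2 ^ (2 * s) + 2 ^ (4 * s + 51)) + 2 ^ (4 * s)) * J := by ring
        _ ≤ _ := Nat.mul_le_mul_right _ h1
    calc badCount (cut A J : Set ℕ) J * R
        ≤ (5 * b + ∑ k ∈ Ks, (6 * badCount (T k : Set ℕ) (laT u k) + (64 * e (k + 1) + 13))) * R :=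
          Nat.mul_le_mul_right _ (by omega)
      _ = 5 * b * R + (∑ k ∈ Ks, (6 * badCount (T k : Set ℕ) (laT u k) +
          (64 * e (k + 1) + 13))) * R := by rw [add_mul]
      _ ≤ 2 ^ (4 * s) * J + (84 * X * J + N * ((2 ^ (2 * s) + 2 ^ (4 * s + 51)) * J)) :=
          Nat.add_le_add hb5 hsum
      _ ≤ 84 * X * J + 2 ^ (8 * s) * J := by omega
      _ ≤ 100 * X * J + 2 ^ (8 * s) * J := by gcongr; norm_num
      _ = (100 * X + 2 ^ (8 * s)) * J := by ring

end Pool.Agent.Helper48.WR
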