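import Pool.Agent.Helper48.WR.FinStep

/-!
# WR2-2: the finite theorem
-/

set_option autoImplicit false

namespace Pool.Agent.Helper48.WR

open Finset Filter
open Pool.Agent.Helper53.WR

/-- All levels. -/
theorem levels {s R C : ℕ} (hs : 100 ≤ s) (hC : C + 1 ≤ 2 ^ (3 * s)) (hR : 2 ^ (10 * s) ≤ R)
    (hRJ : R ≤ 2 ^ s ^ 2) (hbase : ∀ J, J ≤ R → Lev R (C * R) 0 J) (i : ℕ) (hi : i ≤ s) :
    ∀ J, J ≤ 2 ^ (s * i) * R → J ≤ 2 ^ s ^ 2 →
      Lev R (2 ^ (37 * i) * ((C + 1) * R)) (2 ^ (8 * s) * 101 ^ i) J := by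
  induction i with
  | zero =>
    intro J hJ _
    refine (hbase J (by simpa using hJ)).mono ?_ (Nat.zero_le _)
    have : C * R ≤ (C + 1) * R := Nat.mul_le_mul_right _ (Nat.le_succ C)
    simpa using this
  | succ i ih =>
    intro J hJ1 hJ2
    have hmono1 : 2 ^ (37 * i) * ((C + 1) * R) ≤ 2 ^ (37 * (i + 1)) * ((C + 1) * R) :=
      Nat.mul_le_mul_right _ (Nat.pow_le_pow_right (by norm_num) (by omega))
    have hmono2 : 2 ^ (8 * s) * 101 ^ i ≤ 2 ^ (8 * s) * 101 ^ (i + 1) :=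
      Nat.mul_le_mul_left _ (Nat.pow_le_pow_right (by norm_num) (by omega))
    rcases le_or_gt J R with h | h
    · have h1 : J ≤ 2 ^ (s * i) * R := by
        calc J ≤ 1 * R := by omega
          _ ≤ 2 ^ (s * i) * R := Nat.mul_le_mul_right _ Nat.one_le_two_pow
      exact (ih (by omega) J h1 hJ2).mono hmono1 hmono2
    · have hstep : Lev R (2 ^ 36 * (2 ^ (37 * i) * ((C + 1) * R)) + R)
          (100 * (2 ^ (8 * s) * 101 ^ i) + 2 ^ (8 * s)) J := by
        refine level_step hs hR h hJ2 ?_ ?_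
        · calc 2 ^ (37 * i) * ((C + 1) * R) ≤ 2 ^ (37 * s) * (2 ^ (3 * s) * 2 ^ s ^ 2) := by
                gcongr
                · norm_num
                · omega
            _ = 2 ^ (s ^ 2 + 40 * s) := by rw [← pow_add, ← pow_add]; congr 1; ring
        · intro L hL
          have h2s : 0 < 2 ^ s := by positivity
          refine ih (by omega) L ?_ ?_
          · have h1 : L * 2 ^ s ≤ 2 ^ (s * i) * R * 2 ^ s := by
              calc L * 2 ^ s ≤ J := hL
                _ ≤ 2 ^ (s * (i + 1)) * R := hJ1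
                _ = 2 ^ (s * i) * R * 2 ^ s := by rw [mul_add, mul_one, pow_add]; ring
            exact Nat.le_of_mul_le_mul_right h1 h2s
          · have : L * 1 ≤ L * 2 ^ s := Nat.mul_le_mul_left _ Nat.one_le_two_pow
            omega
      refine hstep.mono ?_ ?_
      · have h1 : R ≤ 2 ^ 36 * (2 ^ (37 * i) * ((C + 1) * R)) := by
          calc R ≤ (C + 1) * R := Nat.le_mul_of_pos_left _ (Nat.succ_pos _)
            _ ≤ 2 ^ (37 * i) * ((C + 1) * R) := Nat.le_mul_of_pos_left _ (by positivity)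
            _ ≤ _ := Nat.le_mul_of_pos_left _ (by positivity)
        calc 2 ^ 36 * (2 ^ (37 * i) * ((C + 1) * R)) + R
            ≤ 2 * (2 ^ 36 * (2 ^ (37 * i) * ((C + 1) * R))) := by omega
          _ = 2 ^ (37 * (i + 1)) * ((C + 1) * R) := by
              rw [show 37 * (i + 1) = 1 + 36 + 37 * i by ring, pow_add 2 (1 + 36), pow_add 2 1]
              ring
      · have h1 : 1 ≤ 101 ^ i := Nat.one_le_pow _ _ (by norm_num)
        calc 100 * (2 ^ (8 * s) * 101 ^ i) + 2 ^ (8 * s)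
            ≤ 100 * (2 ^ (8 * s) * 101 ^ i) + 2 ^ (8 * s) * 101 ^ i := by
              have := Nat.le_mul_of_pos_right (2 ^ (8 * s)) h1
              omega
          _ = 2 ^ (8 * s) * 101 ^ (i + 1) := by rw [pow_succ 101 i]; ring

/-- WR2-2 (finite theorem). -/
theorem finite_thm : ∃ c s0 : ℕ, ∀ s, s0 ≤ s → ∀ J R : ℕ, J ≤ 2 ^ (s ^ 2) → 2 ^ (c * s) ≤ R →
    FinB J (R * 2 ^ (c * s)) (J * 2 ^ (c * s) / R) := by
  obtain ⟨C, hC⟩ := lev_base
  refine ⟨40, C + 100, fun s hs J R hJ hR => ?_⟩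
  have hR1 : 1 ≤ R := le_trans Nat.one_le_two_pow hR
  have hCs : C + 1 ≤ 2 ^ (3 * s) := by
    have h1 : C + 1 ≤ 3 * s := by omega
    exact h1.trans Nat.lt_two_pow_self.le
  have key : Lev R (2 ^ (37 * s) * ((C + 1) * R)) (2 ^ (8 * s) * 101 ^ s) J := by
    rcases le_or_gt J R with h | h
    · refine (hC R J hR1 h).mono ?_ (Nat.zero_le _)
      calc C * R ≤ (C + 1) * R := Nat.mul_le_mul_right _ (Nat.le_succ C)
        _ ≤ 2 ^ (37 * s) * ((C + 1) * R) := Nat.le_mul_of_pos_left _ (by positivity)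
    · refine levels (by omega) hCs ?_ (by omega) (fun L hL => hC R L hR1 hL) s le_rfl J ?_ hJ
      · exact le_trans (Nat.pow_le_pow_right (by norm_num) (by omega)) hR
      · calc J ≤ 2 ^ (s * s) * 1 := by rw [mul_one, ← sq]; exact hJ
          _ ≤ 2 ^ (s * s) * R := Nat.mul_le_mul_left _ hR1
  obtain ⟨A, h1, h2, h3⟩ := key
  refine ⟨A, h1, fun n => (h2 n).trans ?_, ?_⟩
  · calc 2 ^ (37 * s) * ((C + 1) * R) ≤ 2 ^ (37 * s) * (2 ^ (3 * s) * R) := by gcongr
      _ = R * 2 ^ (40 * s) := by rw [show 40 * s = 37 * s + 3 * s by ring, pow_add]; ring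
  · rw [Nat.le_div_iff_mul_le hR1]
    refine h3.trans ?_
    have h4 : 101 ^ s ≤ 2 ^ (7 * s) := by
      rw [pow_mul]
      exact Nat.pow_le_pow_left (by norm_num) s
    calc 2 ^ (8 * s) * 101 ^ s * J ≤ 2 ^ (8 * s) * 2 ^ (7 * s) * J := by gcongr
      _ = J * 2 ^ (15 * s) := by rw [show 15 * s = 8 * s + 7 * s by ring, pow_add]; ring
      _ ≤ J * 2 ^ (40 * s) :=
          Nat.mul_le_mul_left _ (Nat.pow_le_pow_right (by norm_num) (by omega))

end Pool.Agent.Helper48.WR
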